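import Pool.Agent.Lib.MP_b304a3_nt.Main

/-!
# Near-magic squares of squares with a line sum that is not a square

Problem MP_b304a3_nt: is the line sum of every near-magic `3 × 3` square of squares a perfect square?

Here: for every progression of three positive squares `x² < y² < z²` there are infinitely many
primitive near-magic squares of squares whose failing diagonal is proportional to `(x², y², z²)` and
whose line sum is not a perfect square.

Proof. Three progressions of three squares with one common difference `Δ` can be arranged to a
near-magic square; its line sum is the sum of the three middle squares, and its failing diagonal is
one of the progressions. From a progression (a point `Q` of the curve `Y² = X³ - Δ² X`) one gets others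
by duplication. For `Q`, `2^m Q`, `2^(m+1) Q` with `m ≥ 1` the line sum is, up to an integral square
factor, congruent to `5` modulo `8`, because each duplication adds exactly one factor `2` to the
denominator of the root of the middle square.
-/

set_option autoImplicit false

namespace Pool.Agent.Results.MP_b304a3_nt.NonsquareSums

/-- Let `x² < y² < z²` be three squares of positive integers in arithmetic progression. The set of
arrays `a` of nine positive integers without common divisor `> 1`, whose squares form a near-magic
square with main diagonal proportional to `(x², y², z²)` and with a line sum that is not a perfect
square, is infinite. -/
theorem result (x y z : ℕ) (hx : 0 < x) (hxy : x < y) (h : x ^ 2 + z ^ 2 = 2 * y ^ 2) :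
    {a : Fin 3 → Fin 3 → ℕ | (∃ S, NearMagic.IsNearMagic a S ∧ ¬ IsSquare S) ∧
      (∀ d, (∀ i j, d ∣ a i j) → d = 1) ∧
      a 0 0 * y = x * a 1 1 ∧ a 2 2 * y = z * a 1 1}.Infinite :=
  NearMagic.main x y z hx hxy h

end Pool.Agent.Results.MP_b304a3_nt.NonsquareSums
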